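import Mathlib

/-! Core lemma of the information part of MP_1243c9: a family of conditional product measures
against few values. -/

open Finset

namespace Pool.Agent.Helper8.UD

/-- **Core lemma.** If the value `F T` takes at most `card V` values and, given the value,
`n i v b` are weights for the two values of the `i`-th bit, then on average over all `T` the sum
of `log (total weight / weight of the true bit)` is at least `card I * log 2 - log (card V)`. -/
theorem core {I V : Type*} [Fintype I] [DecidableEq I] [Fintype V] [DecidableEq V]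
    (F : (I → Bool) → V) (n : I → V → Bool → ℝ)
    (hn : ∀ i v b, 0 ≤ n i v b) (hp : ∀ T i, 0 < n i (F T) (T i)) :
    (2 : ℝ) ^ (Fintype.card I) *
        ((Fintype.card I : ℝ) * Real.log 2 - Real.log (Fintype.card V)) ≤
      ∑ T : I → Bool, ∑ i,
        Real.log ((n i (F T) false + n i (F T) true) / n i (F T) (T i)) := by
  classical
  set N : ℕ := Fintype.card I with hN
  have hV : 0 < Fintype.card V := Fintype.card_pos_iff.2 ⟨F (fun _ => false)⟩
  have hV' : (0 : ℝ) < (Fintype.card V : ℝ) := by exact_mod_cast hV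
  have h2 : (0 : ℝ) < (2 : ℝ) ^ N := by positivity
  set q : I → V → Bool → ℝ := fun i v b => n i v b / (n i v false + n i v true) with hq
  have hq0 : ∀ i v b, 0 ≤ q i v b := fun i v b =>
    div_nonneg (hn i v b) (add_nonneg (hn i v false) (hn i v true))
  have hqs : ∀ i v, ∑ b : Bool, q i v b ≤ 1 := by
    intro i v
    have : ∑ b : Bool, q i v b = (n i v false + n i v true) / (n i v false + n i v true) := by
      simp only [hq, Fintype.sum_bool]
      rw [← add_div, add_comm]
    rw [this]
    exact div_self_le_one _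
  have htot : ∀ T i, 0 < n i (F T) false + n i (F T) true := by
    intro T i
    have h1 := hp T i
    have h3 := hn i (F T) false
    have h4 := hn i (F T) true
    cases hT : T i
    · rw [hT] at h1; linarith
    · rw [hT] at h1; linarith
  have hqp : ∀ T i, 0 < q i (F T) (T i) := fun T i => div_pos (hp T i) (htot T i)
  set μ : V → (I → Bool) → ℝ := fun v T => ∏ i, q i v (T i) with hμ
  have hμ0 : ∀ v T, 0 ≤ μ v T := fun v T => Finset.prod_nonneg (fun i _ => hq0 i v (T i))
  have hμp : ∀ T, 0 < μ (F T) T := fun T => Finset.prod_pos (fun i _ => hqp T i)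
  have hμs : ∀ v, ∑ T : I → Bool, μ v T ≤ 1 := by
    intro v
    have : ∑ T : I → Bool, μ v T = ∏ i, ∑ b : Bool, q i v b := by
      rw [Finset.prod_univ_sum, Fintype.piFinset_univ]
    rw [this]
    exact Finset.prod_le_one (fun i _ => Finset.sum_nonneg (fun b _ => hq0 i v b))
      (fun i _ => hqs i v)
  have hsum : ∑ T : I → Bool, μ (F T) T ≤ (Fintype.card V : ℝ) := by
    calc ∑ T : I → Bool, μ (F T) T ≤ ∑ T : I → Bool, ∑ v, μ v T := by
          refine Finset.sum_le_sum (fun T _ => ?_)
          exact Finset.single_le_sum (f := fun v => μ v T) (fun v _ => hμ0 v T)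
            (Finset.mem_univ (F T))
      _ = ∑ v, ∑ T : I → Bool, μ v T := Finset.sum_comm
      _ ≤ ∑ _v : V, (1 : ℝ) := Finset.sum_le_sum (fun v _ => hμs v)
      _ = (Fintype.card V : ℝ) := by simp
  have hlog : ∀ T : I → Bool, Real.log (μ (F T) T) ≤
      μ (F T) T * ((2 : ℝ) ^ N / Fintype.card V) - 1
        - Real.log ((2 : ℝ) ^ N / Fintype.card V) := by
    intro T
    have hy : 0 < μ (F T) T * ((2 : ℝ) ^ N / Fintype.card V) :=
      mul_pos (hμp T) (div_pos h2 hV')
    have h1 := Real.log_le_sub_one_of_pos hy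
    rw [Real.log_mul (hμp T).ne' (div_pos h2 hV').ne'] at h1
    linarith
  have hcard : (Fintype.card (I → Bool) : ℝ) = (2 : ℝ) ^ N := by
    rw [Fintype.card_fun, Fintype.card_bool]; push_cast; rfl
  have hS : ∑ T : I → Bool, Real.log (μ (F T) T) ≤
      - ((2 : ℝ) ^ N * Real.log ((2 : ℝ) ^ N / Fintype.card V)) := by
    calc ∑ T : I → Bool, Real.log (μ (F T) T)
        ≤ ∑ T : I → Bool, (μ (F T) T * ((2 : ℝ) ^ N / Fintype.card V) - 1
            - Real.log ((2 : ℝ) ^ N / Fintype.card V)) := Finset.sum_le_sum (fun T _ => hlog T)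
      _ = (∑ T : I → Bool, μ (F T) T) * ((2 : ℝ) ^ N / Fintype.card V) - (2 : ℝ) ^ N
            - (2 : ℝ) ^ N * Real.log ((2 : ℝ) ^ N / Fintype.card V) := by
          rw [Finset.sum_sub_distrib, Finset.sum_sub_distrib, ← Finset.sum_mul]
          simp only [Finset.sum_const, Finset.card_univ, nsmul_eq_mul, hcard, mul_one]
      _ ≤ (Fintype.card V : ℝ) * ((2 : ℝ) ^ N / Fintype.card V) - (2 : ℝ) ^ N
            - (2 : ℝ) ^ N * Real.log ((2 : ℝ) ^ N / Fintype.card V) := by
          gcongr
      _ = - ((2 : ℝ) ^ N * Real.log ((2 : ℝ) ^ N / Fintype.card V)) := by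
          field_simp
          ring
  have hL : Real.log ((2 : ℝ) ^ N / Fintype.card V) =
      (N : ℝ) * Real.log 2 - Real.log (Fintype.card V) := by
    rw [Real.log_div h2.ne' hV'.ne', Real.log_pow]
  have hT : ∀ T : I → Bool, ∑ i,
      Real.log ((n i (F T) false + n i (F T) true) / n i (F T) (T i)) =
        - Real.log (μ (F T) T) := by
    intro T
    rw [hμ]
    simp only
    rw [Real.log_prod (fun i _ => (hqp T i).ne'), ← Finset.sum_neg_distrib]
    refine Finset.sum_congr rfl (fun i _ => ?_)
    simp only [hq]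
    rw [← Real.log_inv, inv_div]
  rw [Finset.sum_congr rfl (fun T _ => hT T), Finset.sum_neg_distrib, ← hL]
  linarith

end Pool.Agent.Helper8.UD
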