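import Mathlib

/-! Combinatorial structure of MP_1243c9: points, names of half-planes, tables of secrets. -/

namespace Pool.Agent.Helper8.UD

/-- Digit positions: pairs (row, column). -/
abbrev Dig (g : ℕ) := Fin g × Fin g

/-- Lexicographic number of a digit position. -/
def idx {g : ℕ} (k : Dig g) : ℕ := g * k.1.val + k.2.val

/-- Number of a round: level first, then digit. -/
def rk {M g : ℕ} (r : Fin M × Dig g) : ℕ := g * g * r.1.val + idx r.2

/-- Points: digits `x` and two families of addresses `b`, `b'`. -/
abbrev PT (M g D : ℕ) (β : Type) :=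
  (Dig g → Fin D) × (Fin M × Fin g → β) × (Fin M × Fin g → β)

/-- Tables of secret bits. -/
abbrev Tab (M g : ℕ) (β : Type) := Fin M × Dig g → (β × β → Bool)

/-- Names of half-planes: level, digit, addresses (levels below), digits (before), threshold. -/
abbrev HP (M g D : ℕ) (β : Type) :=
  Fin M × Dig g × (Fin M × Fin g → β) × (Fin M × Fin g → β) × (Dig g → Fin (D + 1)) × Fin D

variable {M g D : ℕ} {β : Type}

/-- The secret bit of the point `p` for level and digit `r`. -/
def tt (S : Tab M g β) (p : PT M g D β) (r : Fin M × Dig g) : Bool :=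
  S r (p.2.1 (r.1, r.2.1), p.2.2 (r.1, r.2.2))

/-- The digit `x + t` (between 0 and `D`, no overflow). -/
def sd (S : Tab M g β) (p : PT M g D β) (r : Fin M × Dig g) : Fin (D + 1) :=
  Fin.ofNat (D + 1) ((p.1 r.2).val + (tt S p r).toNat)

/-- Forget the addresses of the levels `i` and above. -/
def trunc [Inhabited β] (i : Fin M) (b : Fin M × Fin g → β) : Fin M × Fin g → β :=
  fun q => if q.1 < i then b q else default

/-- The half-plane named after the point `p`, at level and digit `r`, threshold `θ`. -/
def name [Inhabited β] (S : Tab M g β) (p : PT M g D β) (r : Fin M × Dig g) (θ : Fin D) :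
    HP M g D β :=
  (r.1, r.2, trunc r.1 p.2.1, trunc r.1 p.2.2,
    fun k' => if idx k' < idx r.2 then sd S p (r.1, k') else 0, θ)

theorem idx_lt (k : Dig g) : idx k < g * g := by
  have h1 := k.1.isLt
  have h2 := k.2.isLt
  unfold idx
  calc g * k.1.val + k.2.val < g * k.1.val + g := by omega
    _ = g * (k.1.val + 1) := by ring
    _ ≤ g * g := Nat.mul_le_mul_left _ h1

theorem idx_injective : Function.Injective (idx : Dig g → ℕ) := by
  intro k l h
  have h1 : (finProdFinEquiv k).val = (finProdFinEquiv l).val := by
    simp only [finProdFinEquiv_apply_val]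
    unfold idx at h
    omega
  exact finProdFinEquiv.injective (Fin.ext h1)

theorem rk_lt (r : Fin M × Dig g) : rk r < M * (g * g) := by
  have h1 := r.1.isLt
  have h2 := idx_lt r.2
  unfold rk
  calc g * g * r.1.val + idx r.2 < g * g * r.1.val + g * g := by omega
    _ = (r.1.val + 1) * (g * g) := by ring
    _ ≤ M * (g * g) := Nat.mul_le_mul_right _ h1

/-- The order of the rounds is lexicographic. -/
theorem rk_lt_rk {r r' : Fin M × Dig g} (h : rk r' < rk r) :
    r'.1 < r.1 ∨ (r'.1 = r.1 ∧ idx r'.2 < idx r.2) := by
  rcases lt_trichotomy r'.1 r.1 with h1 | h1 | h1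
  · exact Or.inl h1
  · refine Or.inr ⟨h1, ?_⟩
    unfold rk at h
    rw [h1] at h
    omega
  · exfalso
    have h2 := idx_lt r.2
    have h3 : r.1.val + 1 ≤ r'.1.val := h1
    have h4 : g * g * (r.1.val + 1) ≤ g * g * r'.1.val := Nat.mul_le_mul_left _ h3
    unfold rk at h
    have h5 : g * g * (r.1.val + 1) = g * g * r.1.val + g * g := by ring
    omega

theorem rk_injective : Function.Injective (rk : Fin M × Dig g → ℕ) := by
  intro r r' h
  have h1 : r.1 = r'.1 := by
    rcases lt_trichotomy r.1 r'.1 with h1 | h1 | h1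
    · exfalso
      have h2 := idx_lt r.2
      have h3 : r.1.val + 1 ≤ r'.1.val := h1
      have h4 : g * g * (r.1.val + 1) ≤ g * g * r'.1.val := Nat.mul_le_mul_left _ h3
      unfold rk at h
      have h5 : g * g * (r.1.val + 1) = g * g * r.1.val + g * g := by ring
      omega
    · exact h1
    · exfalso
      have h2 := idx_lt r'.2
      have h3 : r'.1.val + 1 ≤ r.1.val := h1
      have h4 : g * g * (r'.1.val + 1) ≤ g * g * r.1.val := Nat.mul_le_mul_left _ h3
      unfold rk at h
      have h5 : g * g * (r'.1.val + 1) = g * g * r'.1.val + g * g := by ring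
      omega
  have h2 : r.2 = r'.2 := by
    apply idx_injective
    unfold rk at h
    rw [h1] at h
    omega
  exact Prod.ext h1 h2

theorem rk_surj {s : ℕ} (hs : s < M * (g * g)) : ∃ r : Fin M × Dig g, rk r = s := by
  set a := finProdFinEquiv.symm (⟨s, hs⟩ : Fin (M * (g * g))) with ha
  set k := finProdFinEquiv.symm a.2 with hk
  refine ⟨(a.1, k), ?_⟩
  have h1 : (finProdFinEquiv a).val = s := by rw [ha, Equiv.apply_symm_apply]
  have h2 : (finProdFinEquiv k).val = a.2.val := by rw [hk, Equiv.apply_symm_apply]
  simp only [finProdFinEquiv_apply_val] at h1 h2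
  unfold rk idx
  simp only
  omega

end Pool.Agent.Helper8.UD
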