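import Pool.Agent.Helper8.UD.Sum

/-! The information part of MP_1243c9. -/

open Finset

namespace Pool.Agent.Helper8.UD

set_option linter.unusedSectionVars false

variable {M g D : ℕ} {β : Type} [Fintype β] [DecidableEq β] [Inhabited β]
variable {L : ℕ} (labP : Tab M g β → PT M g D β → Fin L)
  (labH : Tab M g β → HP M g D β → Fin L) (A : Fin L → Fin L → Prop)

/-- The labelling decides the secret bits. -/
def Decides : Prop := ∀ (S : Tab M g β) (p : PT M g D β) (r : Fin M × Dig g),
  A (labP S p) (labH S (name S p r (p.1 r.2))) ↔ tt S p r = true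

variable {labP labH A}

theorem Nn_pos (h : Decides labP labH A) (s : ℕ) (S : Tab M g β) (p : PT M g D β) :
    0 < Nn labH A s S p := by
  classical
  unfold Nn
  rw [Finset.card_pos]
  exact ⟨labP S p, by
    simp only [Finset.mem_filter, Finset.mem_univ, true_and]
    exact fun r _ => h S p r⟩

theorem nw_nonneg (r0 : Fin M × Dig g) (S : Tab M g β) (b b' : Fin M × Fin g → β)
    (x0 : Dig g → Fin (D + 1)) (q : β × β) (v : Val M g D β L) (bit : Bool) :
    0 ≤ nw A r0 S b b' x0 q v bit := by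
  unfold nw
  split_ifs
  · exact Nat.cast_nonneg _
  · exact zero_le_one

theorem nw_pos (h : Decides labP labH A) (r0 : Fin M × Dig g) (S : Tab M g β)
    (b b' : Fin M × Fin g → β) (x0 : Dig g → Fin (D + 1)) (T : β × β → Bool) (q : β × β) :
    0 < nw A r0 S b b' x0 q (Fv labH r0 S b b' x0 T) (T q) := by
  by_cases hx : ∃ x : Dig g → Fin D, shift r0 S b' q.1 x = x0
  · obtain ⟨x, hx⟩ := hx
    rw [nw_self labH A hx]
    exact_mod_cast Nn_pos h _ _ _
  · unfold nw
    rw [dif_neg hx]
    exact zero_lt_one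

/-- The sum over the places with given shifted digits. -/
theorem place_sum (h : Decides labP labH A) (r0 : Fin M × Dig g) (S : Tab M g β)
    (b b' : Fin M × Fin g → β) (x0 : Dig g → Fin (D + 1)) (T : β × β → Bool) (q : β × β) :
    (∑ x : Dig g → Fin D, if shift r0 S b' q.1 x = x0 then
      psi labH A r0 (Function.update S r0 T) (mp r0 b b' q.1 q.2 x) else 0) =
    Real.log 2 - Real.log
      ((nw A r0 S b b' x0 q (Fv labH r0 S b b' x0 T) false +
        nw A r0 S b b' x0 q (Fv labH r0 S b b' x0 T) true) /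
        nw A r0 S b b' x0 q (Fv labH r0 S b b' x0 T) (T q)) := by
  classical
  by_cases hx : ∃ x : Dig g → Fin D, shift r0 S b' q.1 x = x0
  · obtain ⟨x, hx⟩ := hx
    rw [Finset.sum_eq_single x]
    · rw [if_pos hx, nw_add labH A hx, nw_self labH A hx, Real.log_div]
      · rfl
      · exact_mod_cast (Nn_pos h _ _ _).ne'
      · exact_mod_cast (Nn_pos h _ _ _).ne'
    · intro y _ hy
      rw [if_neg]
      intro h1
      exact hy (shift_injective _ _ _ _ (h1.trans hx.symm))
    · intro h1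
      exact absurd (Finset.mem_univ x) h1
  · have h1 : ∀ v bit, nw A r0 S b b' x0 q v bit = 1 := by
      intro v bit
      unfold nw
      rw [dif_neg hx]
    rw [h1, h1, h1, Finset.sum_eq_zero]
    · norm_num
    · intro y _
      rw [if_neg]
      exact fun h2 => hx ⟨y, h2⟩

/-- For fixed shifted digits the total loss is small. -/
theorem inner_sum (h : Decides labP labH A) (r0 : Fin M × Dig g) (S : Tab M g β)
    (b b' : Fin M × Fin g → β) (x0 : Dig g → Fin (D + 1)) :
    (∑ T : β × β → Bool, ∑ q : β × β, ∑ x : Dig g → Fin D,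
      if shift r0 S b' q.1 x = x0 then
        psi labH A r0 (Function.update S r0 T) (mp r0 b b' q.1 q.2 x) else 0) ≤
    (2 : ℝ) ^ (Fintype.card (β × β)) * Real.log (Fintype.card (Val M g D β L)) := by
  classical
  have h1 := core (I := β × β) (V := Val M g D β L) (Fv labH r0 S b b' x0)
    (nw A r0 S b b' x0) (fun q v bit => nw_nonneg r0 S b b' x0 q v bit)
    (fun T q => nw_pos h r0 S b b' x0 T q)
  have h2 : (∑ T : β × β → Bool, ∑ q : β × β, ∑ x : Dig g → Fin D,
      if shift r0 S b' q.1 x = x0 then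
        psi labH A r0 (Function.update S r0 T) (mp r0 b b' q.1 q.2 x) else 0) =
      (2 : ℝ) ^ (Fintype.card (β × β)) * ((Fintype.card (β × β) : ℝ) * Real.log 2) -
      ∑ T : β × β → Bool, ∑ q : β × β, Real.log
      ((nw A r0 S b b' x0 q (Fv labH r0 S b b' x0 T) false +
        nw A r0 S b b' x0 q (Fv labH r0 S b b' x0 T) true) /
        nw A r0 S b b' x0 q (Fv labH r0 S b b' x0 T) (T q)) := by
    rw [Finset.sum_congr rfl (fun T _ => Finset.sum_congr rfl (fun q _ =>
      place_sum h r0 S b b' x0 T q))]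
    simp only [Finset.sum_sub_distrib]
    congr 1
    simp only [Finset.sum_const, Finset.card_univ, nsmul_eq_mul]
    rw [Fintype.card_fun, Fintype.card_bool]
    push_cast
    ring
  rw [h2]
  linarith

theorem card_val_log (hM : 0 < M) (hL : 0 < L) :
    Real.log (Fintype.card (Val M g D β L)) ≤
      2 * (Fintype.card β : ℝ) * ((M * (g * g) : ℕ) : ℝ) * (D : ℝ) * Real.log L := by
  have h1 : Fintype.card (Val M g D β L) =
      L ^ (D * (M * (g * g)) * Fintype.card β) * L ^ (D * (g * g) * Fintype.card β) := by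
    simp only [Val, Dig, Fintype.card_prod, Fintype.card_fun, Fintype.card_fin, ← pow_mul]
  have hL' : (0 : ℝ) < (L : ℝ) := by exact_mod_cast hL
  have h0 : 0 ≤ Real.log L := Real.log_natCast_nonneg L
  rw [h1]
  push_cast
  rw [Real.log_mul (by positivity) (by positivity), Real.log_pow, Real.log_pow]
  have h2 : ((g * g : ℕ) : ℝ) ≤ ((M * (g * g) : ℕ) : ℝ) := by
    exact_mod_cast Nat.le_mul_of_pos_left _ hM
  push_cast at h2 ⊢
  have h3 : (0 : ℝ) ≤ (D : ℝ) * (Fintype.card β : ℝ) * Real.log L := by positivity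
  nlinarith [mul_le_mul_of_nonneg_left h2 h3]

theorem card_shift (hg : 0 < g) (hD : g * g ≤ D) :
    (Fintype.card (Dig g → Fin (D + 1)) : ℝ) ≤ 3 * (Fintype.card (Dig g → Fin D) : ℝ) := by
  have hD0 : 0 < D := lt_of_lt_of_le (Nat.mul_pos hg hg) hD
  have hD' : (0 : ℝ) < (D : ℝ) := by exact_mod_cast hD0
  simp only [Dig, Fintype.card_fun, Fintype.card_prod, Fintype.card_fin]
  push_cast
  have h1 : ((D : ℝ) + 1) = (D : ℝ) * (1 + 1 / (D : ℝ)) := by
    field_simp
  have h2 : (1 + 1 / (D : ℝ)) ^ (g * g) ≤ 3 := by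
    calc (1 + 1 / (D : ℝ)) ^ (g * g) ≤ (Real.exp (1 / (D : ℝ))) ^ (g * g) := by
          apply pow_le_pow_left₀ (by positivity)
          have := Real.add_one_le_exp (1 / (D : ℝ))
          linarith
      _ = Real.exp (((g * g : ℕ) : ℝ) * (1 / (D : ℝ))) := by
          rw [← Real.exp_nat_mul]
      _ ≤ Real.exp 1 := by
          apply Real.exp_le_exp.2
          rw [mul_one_div, div_le_one hD']
          exact_mod_cast hD
      _ ≤ 3 := by
          have := Real.exp_one_lt_d9
          linarith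
  rw [h1, mul_pow]
  have h3 : (0 : ℝ) ≤ (D : ℝ) ^ (g * g) := by positivity
  nlinarith

/-- The loss of one round. -/
theorem round_sum (h : Decides labP labH A) (hL : 0 < L) (hg : 0 < g) (hD : g * g ≤ D)
    (r0 : Fin M × Dig g) :
    ∑ S : Tab M g β, ∑ p : PT M g D β, psi labH A r0 S p ≤
      (Fintype.card (Tab M g β) : ℝ) * (Fintype.card (PT M g D β) : ℝ) *
        (6 * ((M * (g * g) : ℕ) : ℝ) * (D : ℝ) * Real.log L / (Fintype.card β : ℝ)) := by
  classical
  have hM : 0 < M := lt_of_le_of_lt (Nat.zero_le _) r0.1.isLt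
  have hβ : (0 : ℝ) < (Fintype.card β : ℝ) := by
    exact_mod_cast Fintype.card_pos_iff.2 ⟨(default : β)⟩
  have h0 : 0 ≤ Real.log L := Real.log_natCast_nonneg L
  set N : ℕ := Fintype.card (β × β) with hN
  have h2N : (0 : ℝ) < (2 : ℝ) ^ N := by positivity
  -- resampling
  have hres := sum_update3 (α₁ := β × β → Bool) (α₂ := β) (α₃ := β) r0 (r0.1, r0.2.1)
    (r0.1, r0.2.2)
    (fun (S : Tab M g β) (b : Fin M × Fin g → β) (b' : Fin M × Fin g → β) =>
      ∑ x : Dig g → Fin D, psi labH A r0 S (x, b, b'))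
  have hcardT : (Fintype.card (β × β → Bool) : ℝ) = (2 : ℝ) ^ N := by
    rw [Fintype.card_fun, Fintype.card_bool]; push_cast; rfl
  rw [hcardT] at hres
  have hleft : ∀ (S : Tab M g β) (b b' : Fin M × Fin g → β),
      (∑ T : β × β → Bool, ∑ c : β, ∑ c' : β, ∑ x : Dig g → Fin D,
        psi labH A r0 (Function.update S r0 T)
          (x, Function.update b (r0.1, r0.2.1) c, Function.update b' (r0.1, r0.2.2) c')) ≤
      (Fintype.card (Dig g → Fin (D + 1)) : ℝ) *
        ((2 : ℝ) ^ N * (2 * (Fintype.card β : ℝ) * ((M * (g * g) : ℕ) : ℝ) * (D : ℝ) *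
          Real.log L)) := by
    intro S b b'
    have e1 : (∑ T : β × β → Bool, ∑ c : β, ∑ c' : β, ∑ x : Dig g → Fin D,
        psi labH A r0 (Function.update S r0 T)
          (x, Function.update b (r0.1, r0.2.1) c, Function.update b' (r0.1, r0.2.2) c')) =
        ∑ x0 : Dig g → Fin (D + 1), ∑ T : β × β → Bool, ∑ q : β × β, ∑ x : Dig g → Fin D,
          (if shift r0 S b' q.1 x = x0 then
            psi labH A r0 (Function.update S r0 T) (mp r0 b b' q.1 q.2 x) else 0) := by
      refine Eq.symm (Finset.sum_comm.trans ?_)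
      refine Finset.sum_congr rfl (fun T _ => ?_)
      refine Finset.sum_comm.trans ?_
      refine (Fintype.sum_prod_type _).trans ?_
      refine Finset.sum_congr rfl (fun c _ => Finset.sum_congr rfl (fun c' _ => ?_))
      refine Finset.sum_comm.trans ?_
      refine Finset.sum_congr rfl (fun x _ => ?_)
      rw [Finset.sum_ite_eq Finset.univ (shift r0 S b' c x)]
      simp only [Finset.mem_univ, if_true]
    rw [e1]
    calc _ ≤ ∑ _x0 : Dig g → Fin (D + 1), (2 : ℝ) ^ N *
          (2 * (Fintype.card β : ℝ) * ((M * (g * g) : ℕ) : ℝ) * (D : ℝ) * Real.log L) := by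
          refine Finset.sum_le_sum (fun x0 _ => ?_)
          refine (inner_sum h r0 S b b' x0).trans ?_
          exact mul_le_mul_of_nonneg_left (card_val_log hM hL) h2N.le
      _ = _ := by
          rw [Finset.sum_const, Finset.card_univ, nsmul_eq_mul]
  have hsum := Finset.sum_le_sum (fun (S : Tab M g β) (_ : S ∈ Finset.univ) =>
    Finset.sum_le_sum (fun (b : Fin M × Fin g → β) (_ : b ∈ Finset.univ) =>
      Finset.sum_le_sum (fun (b' : Fin M × Fin g → β) (_ : b' ∈ Finset.univ) =>
        hleft S b b')))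
  rw [hres] at hsum
  simp only [Finset.sum_const, Finset.card_univ, nsmul_eq_mul] at hsum
  have hfin : ∑ S : Tab M g β, ∑ p : PT M g D β, psi labH A r0 S p =
      ∑ S : Tab M g β, ∑ b : Fin M × Fin g → β, ∑ b' : Fin M × Fin g → β,
        ∑ x : Dig g → Fin D, psi labH A r0 S (x, b, b') := by
    refine Finset.sum_congr rfl (fun S _ => ?_)
    exact (Fintype.sum_prod_type _).trans (Finset.sum_comm.trans (Fintype.sum_prod_type _))
  have hPT : (Fintype.card (PT M g D β) : ℝ) =
      (Fintype.card (Dig g → Fin D) : ℝ) * ((Fintype.card (Fin M × Fin g → β) : ℝ) *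
        (Fintype.card (Fin M × Fin g → β) : ℝ)) := by
    simp only [PT]
    rw [Fintype.card_prod, Fintype.card_prod]
    push_cast
    ring
  rw [hfin, hPT]
  set W4 := ∑ S : Tab M g β, ∑ b : Fin M × Fin g → β, ∑ b' : Fin M × Fin g → β,
        ∑ x : Dig g → Fin D, psi labH A r0 S (x, b, b') with hW4
  set cT := (Fintype.card (Tab M g β) : ℝ)
  set cb := (Fintype.card (Fin M × Fin g → β) : ℝ)
  set X1 := (Fintype.card (Dig g → Fin (D + 1)) : ℝ)
  set X0 := (Fintype.card (Dig g → Fin D) : ℝ)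
  set K := (Fintype.card β : ℝ)
  set R := ((M * (g * g) : ℕ) : ℝ)
  have hX : X1 ≤ 3 * X0 := card_shift hg hD
  have hcT : 0 ≤ cT := Nat.cast_nonneg _
  have hcb : 0 ≤ cb := Nat.cast_nonneg _
  have hR : 0 ≤ R := Nat.cast_nonneg _
  have hDn : (0 : ℝ) ≤ (D : ℝ) := Nat.cast_nonneg _
  have hE : (2 : ℝ) ^ N * (K * K * W4) ≤
      (2 : ℝ) ^ N * (cT * (cb * (cb * (3 * X0 * (2 * K * R * (D : ℝ) * Real.log L))))) := by
    calc (2 : ℝ) ^ N * (K * K * W4) = (2 : ℝ) ^ N * K * K * W4 := by ring
      _ ≤ cT * (cb * (cb * (X1 * ((2 : ℝ) ^ N * (2 * K * R * (D : ℝ) * Real.log L))))) := hsum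
      _ ≤ cT * (cb * (cb * ((3 * X0) * ((2 : ℝ) ^ N * (2 * K * R * (D : ℝ) *
            Real.log L))))) := by
          gcongr
      _ = _ := by ring
  have hE2 := le_of_mul_le_mul_left hE h2N
  have hE3 : K * K * W4 ≤ K * K * (cT * (X0 * (cb * cb)) *
      (6 * R * (D : ℝ) * Real.log L / K)) := by
    refine hE2.trans (le_of_eq ?_)
    field_simp
    ring
  exact le_of_mul_le_mul_left hE3 (mul_pos hβ hβ)

/-- **The information part.** -/
theorem info (h : Decides labP labH A) (hg : 0 < g) (hD : g * g ≤ D)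
    (hB : 6 * (M * (g * g)) ^ 2 * D ≤ Fintype.card β) : 2 ^ (M * (g * g)) ≤ L ^ 2 := by
  classical
  have hD0 : 0 < D := lt_of_lt_of_le (Nat.mul_pos hg hg) hD
  have hPTne : Nonempty (PT M g D β) := ⟨(fun _ => ⟨0, hD0⟩, fun _ => default, fun _ => default)⟩
  have hTne : Nonempty (Tab M g β) := ⟨fun _ _ => false⟩
  obtain ⟨p0⟩ := hPTne
  obtain ⟨S0⟩ := hTne
  have hL : 0 < L := lt_of_le_of_lt (Nat.zero_le _) (labP S0 p0).isLt
  have hβ : (0 : ℝ) < (Fintype.card β : ℝ) := by
    exact_mod_cast Fintype.card_pos_iff.2 ⟨(default : β)⟩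
  have h0 : 0 ≤ Real.log L := Real.log_natCast_nonneg L
  set R : ℕ := M * (g * g) with hR
  set cT := (Fintype.card (Tab M g β) : ℝ) with hcT
  set cP := (Fintype.card (PT M g D β) : ℝ) with hcP
  have hcTp : 0 < cT := by
    rw [hcT]; exact_mod_cast Fintype.card_pos_iff.2 ⟨S0⟩
  have hcPp : 0 < cP := by
    rw [hcP]; exact_mod_cast Fintype.card_pos_iff.2 ⟨p0⟩
  -- telescoping
  have htel : ∀ (S : Tab M g β) (p : PT M g D β),
      (R : ℝ) * Real.log 2 - Real.log L ≤ ∑ s ∈ Finset.range R,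
        (Real.log 2 - (Real.log (Nn labH A s S p) - Real.log (Nn labH A (s + 1) S p))) := by
    intro S p
    rw [Finset.sum_sub_distrib, Finset.sum_const, Finset.card_range, nsmul_eq_mul,
      Finset.sum_range_sub']
    have h1 : Nn labH A 0 S p = L := by
      unfold Nn
      simp
    have h2 : 0 ≤ Real.log (Nn labH A R S p) := Real.log_natCast_nonneg _
    rw [h1]
    linarith
  have hsum : cT * cP * ((R : ℝ) * Real.log 2 - Real.log L) ≤
      (R : ℝ) * (cT * cP * (6 * (R : ℝ) * (D : ℝ) * Real.log L / (Fintype.card β : ℝ))) := by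
    calc cT * cP * ((R : ℝ) * Real.log 2 - Real.log L)
        = ∑ _S : Tab M g β, ∑ _p : PT M g D β, ((R : ℝ) * Real.log 2 - Real.log L) := by
          simp only [Finset.sum_const, Finset.card_univ, nsmul_eq_mul]
          ring
      _ ≤ ∑ S : Tab M g β, ∑ p : PT M g D β, ∑ s ∈ Finset.range R,
        (Real.log 2 - (Real.log (Nn labH A s S p) - Real.log (Nn labH A (s + 1) S p))) :=
          Finset.sum_le_sum (fun S _ => Finset.sum_le_sum (fun p _ => htel S p))
      _ = ∑ s ∈ Finset.range R, ∑ S : Tab M g β, ∑ p : PT M g D β,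
        (Real.log 2 - (Real.log (Nn labH A s S p) - Real.log (Nn labH A (s + 1) S p))) := by
          refine (Finset.sum_congr rfl (fun S _ => Finset.sum_comm)).trans ?_
          exact Finset.sum_comm
      _ ≤ ∑ s ∈ Finset.range R, (cT * cP *
          (6 * (R : ℝ) * (D : ℝ) * Real.log L / (Fintype.card β : ℝ))) := by
          refine Finset.sum_le_sum (fun s hs => ?_)
          obtain ⟨r, hr⟩ := rk_surj (M := M) (g := g) (Finset.mem_range.1 hs)
          have h1 := round_sum h hL hg hD r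
          unfold psi at h1
          rw [hr] at h1
          exact h1
      _ = _ := by
          rw [Finset.sum_const, Finset.card_range, nsmul_eq_mul]
  have hmain : (R : ℝ) * Real.log 2 - Real.log L ≤
      (R : ℝ) * (6 * (R : ℝ) * (D : ℝ) * Real.log L / (Fintype.card β : ℝ)) := by
    have h1 : cT * cP * ((R : ℝ) * Real.log 2 - Real.log L) ≤ cT * cP *
        ((R : ℝ) * (6 * (R : ℝ) * (D : ℝ) * Real.log L / (Fintype.card β : ℝ))) := by
      refine hsum.trans (le_of_eq (by ring))
    exact le_of_mul_le_mul_left h1 (mul_pos hcTp hcPp)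
  have hB' : 6 * (R : ℝ) ^ 2 * (D : ℝ) ≤ (Fintype.card β : ℝ) := by exact_mod_cast hB
  have hsmall : (R : ℝ) * (6 * (R : ℝ) * (D : ℝ) * Real.log L / (Fintype.card β : ℝ)) ≤
      Real.log L := by
    have h1 : (R : ℝ) * (6 * (R : ℝ) * (D : ℝ) * Real.log L / (Fintype.card β : ℝ)) =
        (6 * (R : ℝ) ^ 2 * (D : ℝ) / (Fintype.card β : ℝ)) * Real.log L := by
      ring
    rw [h1]
    have h2 : 6 * (R : ℝ) ^ 2 * (D : ℝ) / (Fintype.card β : ℝ) ≤ 1 := by
      rw [div_le_one hβ]
      exact hB'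
    calc _ ≤ 1 * Real.log L := mul_le_mul_of_nonneg_right h2 h0
      _ = Real.log L := one_mul _
  have hend : (R : ℝ) * Real.log 2 ≤ 2 * Real.log L := by linarith
  have hL' : (0 : ℝ) < (L : ℝ) := by exact_mod_cast hL
  have hpow : Real.log ((2 : ℝ) ^ R) ≤ Real.log ((L : ℝ) ^ 2) := by
    rw [Real.log_pow, Real.log_pow]
    push_cast
    exact hend
  have hreal : (2 : ℝ) ^ R ≤ (L : ℝ) ^ 2 :=
    (Real.log_le_log_iff (by positivity) (by positivity)).1 hpow
  exact_mod_cast hreal

end Pool.Agent.Helper8.UD
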