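import Pool.Agent.Helper8.UD.Core
import Pool.Agent.Helper8.UD.Defs

/-! One round of the information part. -/

open Finset

namespace Pool.Agent.Helper8.UD

/-- Resampling one coordinate of a function. -/
theorem sum_update {ι α : Type*} [Fintype ι] [DecidableEq ι] [Fintype α]
    (i : ι) (φ : (ι → α) → ℝ) :
    ∑ f : ι → α, ∑ a : α, φ (Function.update f i a) = (Fintype.card α : ℝ) * ∑ f, φ f := by
  classical
  have hinv : Function.Involutive (fun q : (ι → α) × α => (Function.update q.1 i q.2, q.1 i)) := by
    intro q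
    simp only [Function.update_self, Function.update_idem, Function.update_eq_self]
  have h1 : ∑ q : (ι → α) × α, φ (Function.update q.1 i q.2) = ∑ q : (ι → α) × α, φ q.1 :=
    Equiv.sum_comp (hinv.toPerm _) (fun q : (ι → α) × α => φ q.1)
  rw [Fintype.sum_prod_type, Fintype.sum_prod_type] at h1
  simp only [Finset.sum_const, Finset.card_univ, nsmul_eq_mul] at h1
  rw [h1, ← Finset.mul_sum]

set_option linter.unusedSectionVars false

variable {M g D : ℕ} {β : Type} [Fintype β] [DecidableEq β] [Inhabited β]
variable {L : ℕ} (labH : Tab M g β → HP M g D β → Fin L) (A : Fin L → Fin L → Prop)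

open Classical in
/-- Labels consistent with the rounds before `s`. -/
noncomputable def Nn (s : ℕ) (S : Tab M g β) (p : PT M g D β) : ℕ :=
  (univ.filter (fun ℓ : Fin L => ∀ r : Fin M × Dig g, rk r < s →
    (A ℓ (labH S (name S p r (p.1 r.2))) ↔ tt S p r = true))).card

/-- The loss of one round at one place. -/
noncomputable def psi (r0 : Fin M × Dig g) (S : Tab M g β) (p : PT M g D β) : ℝ :=
  Real.log 2 - (Real.log (Nn labH A (rk r0) S p) - Real.log (Nn labH A (rk r0 + 1) S p))

/-- The secret bits of the row of `r0` before `r0`, for the address `c`. -/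
def rowt (r0 : Fin M × Dig g) (S : Tab M g β) (b' : Fin M × Fin g → β) (c : β) (k : Dig g) : ℕ :=
  if k.1 = r0.2.1 ∧ k.2 < r0.2.2 then (S (r0.1, k) (c, b' (r0.1, k.2))).toNat else 0

theorem rowt_le (r0 : Fin M × Dig g) (S : Tab M g β) (b' : Fin M × Fin g → β) (c : β)
    (k : Dig g) : rowt r0 S b' c k ≤ 1 := by
  unfold rowt
  split_ifs
  · exact Bool.toNat_le _
  · exact Nat.zero_le _

/-- The shift of the digits. -/
def shift (r0 : Fin M × Dig g) (S : Tab M g β) (b' : Fin M × Fin g → β) (c : β)
    (x : Dig g → Fin D) : Dig g → Fin (D + 1) :=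
  fun k => Fin.ofNat (D + 1) ((x k).val + rowt r0 S b' c k)

theorem shift_val (r0 : Fin M × Dig g) (S : Tab M g β) (b' : Fin M × Fin g → β) (c : β)
    (x : Dig g → Fin D) (k : Dig g) :
    (shift r0 S b' c x k).val = (x k).val + rowt r0 S b' c k := by
  have h1 := (x k).isLt
  have h2 := rowt_le r0 S b' c k
  simp only [shift, Fin.ofNat]
  exact Nat.mod_eq_of_lt (by omega)

theorem shift_injective (r0 : Fin M × Dig g) (S : Tab M g β) (b' : Fin M × Fin g → β) (c : β) :
    Function.Injective (shift (D := D) r0 S b' c) := by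
  intro x y h
  funext k
  have h1 := congrArg (fun f => (f k).val) h
  simp only [shift_val] at h1
  exact Fin.ext (by omega)

/-- Digits recovered from the shifted digits. -/
def xn (r0 : Fin M × Dig g) (S : Tab M g β) (b' : Fin M × Fin g → β) (x0 : Dig g → Fin (D + 1))
    (c : β) (k : Dig g) : ℕ := (x0 k).val - rowt r0 S b' c k

theorem xn_eq {r0 : Fin M × Dig g} {S : Tab M g β} {b' : Fin M × Fin g → β}
    {x0 : Dig g → Fin (D + 1)} {c : β} {x : Dig g → Fin D} (h : shift r0 S b' c x = x0)
    (k : Dig g) : xn r0 S b' x0 c k = (x k).val := by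
  unfold xn
  rw [← h, shift_val]
  omega

/-- Names of the levels below, as a function of `c`. -/
def names1 (r0 : Fin M × Dig g) (S : Tab M g β) (b b' : Fin M × Fin g → β)
    (x0 : Dig g → Fin (D + 1)) (c : β) (r : Fin M × Dig g) (θ : Fin D) : HP M g D β :=
  (r.1, r.2, trunc r.1 b, trunc r.1 b',
    fun k' => if idx k' < idx r.2 then
      Fin.ofNat (D + 1) (xn r0 S b' x0 c k' +
        (S (r.1, k') (b (r.1, k'.1), b' (r.1, k'.2))).toNat) else 0, θ)

/-- Names of the same level, as a function of `c'`. -/
def names2 (r0 : Fin M × Dig g) (S : Tab M g β) (b b' : Fin M × Fin g → β)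
    (x0 : Dig g → Fin (D + 1)) (c' : β) (k : Dig g) (θ : Fin D) : HP M g D β :=
  (r0.1, k, trunc r0.1 b, trunc r0.1 b',
    fun k' => if idx k' < idx k then
      (if k'.1 = r0.2.1 then x0 k' else
        Fin.ofNat (D + 1) ((x0 k').val +
        (S (r0.1, k') (b (r0.1, k'.1),
          (Function.update b' (r0.1, r0.2.2) c') (r0.1, k'.2))).toNat)) else 0, θ)

section
variable {r0 : Fin M × Dig g} {S : Tab M g β} {b b' : Fin M × Fin g → β}
  {x0 : Dig g → Fin (D + 1)} {c c' : β} {T : β × β → Bool} {x : Dig g → Fin D}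

/-- The modified point. -/
abbrev mp (r0 : Fin M × Dig g) (b b' : Fin M × Fin g → β) (c c' : β) (x : Dig g → Fin D) :
    PT M g D β :=
  (x, Function.update b (r0.1, r0.2.1) c, Function.update b' (r0.1, r0.2.2) c')

theorem trunc_update (i i' : Fin M) (h : i' ≤ i) (u : Fin g) (b : Fin M × Fin g → β) (c : β) :
    trunc i' (Function.update b (i, u) c) = trunc i' b := by
  funext q
  unfold trunc
  split_ifs with h1
  · rw [Function.update_of_ne]
    intro h2
    rw [h2] at h1
    exact absurd h1 (not_lt.2 h)
  · rfl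

theorem name1_eq (h : shift r0 S b' c x = x0) {r : Fin M × Dig g} (hr : r.1 < r0.1)
    (θ : Fin D) :
    name (Function.update S r0 T) (mp r0 b b' c c' x) r θ = names1 r0 S b b' x0 c r θ := by
  unfold name names1
  simp only [mp]
  rw [trunc_update r0.1 r.1 hr.le, trunc_update r0.1 r.1 hr.le]
  refine Prod.ext rfl (Prod.ext rfl (Prod.ext rfl (Prod.ext rfl (Prod.ext ?_ rfl))))
  funext k'
  simp only
  split_ifs with h1
  · unfold sd tt
    simp only
    rw [Function.update_of_ne, Function.update_of_ne, Function.update_of_ne, xn_eq h]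
    · intro h2
      exact absurd (congrArg Prod.fst h2) hr.ne
    · intro h2
      exact absurd (congrArg Prod.fst h2) hr.ne
    · intro h2
      exact absurd (congrArg Prod.fst h2) hr.ne
  · rfl

theorem name2_eq (h : shift r0 S b' c x = x0) {k : Dig g} (hk : idx k ≤ idx r0.2)
    (θ : Fin D) :
    name (Function.update S r0 T) (mp r0 b b' c c' x) (r0.1, k) θ =
      names2 r0 S b b' x0 c' k θ := by
  unfold name names2
  simp only [mp]
  rw [trunc_update r0.1 r0.1 le_rfl, trunc_update r0.1 r0.1 le_rfl]
  refine Prod.ext rfl (Prod.ext rfl (Prod.ext rfl (Prod.ext rfl (Prod.ext ?_ rfl))))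
  funext k'
  simp only
  split_ifs with h1 h2
  · -- same row
    have h3 : idx k' < idx r0.2 := lt_of_lt_of_le h1 hk
    have h4 : k'.2 < r0.2.2 := by
      unfold idx at h3
      rw [h2] at h3
      exact Fin.lt_def.2 (by omega)
    have h5 : ((r0.1, k') : Fin M × Dig g) ≠ r0 := by
      intro h6
      have h7 : k' = r0.2 := congrArg Prod.snd h6
      rw [h7] at h3
      exact lt_irrefl _ h3
    have h6 : ((r0.1, k'.2) : Fin M × Fin g) ≠ (r0.1, r0.2.2) := by
      intro h7
      exact h4.ne (Prod.mk.inj h7).2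
    have h7 := shift_val (D := D) r0 S b' c x k'
    rw [h] at h7
    unfold sd tt
    simp only
    rw [Function.update_of_ne h5, Function.update_of_ne h6, h2, Function.update_self]
    apply Fin.ext
    rw [h7]
    unfold rowt
    rw [if_pos ⟨h2, h4⟩]
    simp only [Fin.ofNat]
    refine Nat.mod_eq_of_lt ?_
    have h8 := (x k').isLt
    have h9 := Bool.toNat_le (S (r0.1, k') (c, b' (r0.1, k'.2)))
    omega
  · -- other row
    have h3 : idx k' < idx r0.2 := lt_of_lt_of_le h1 hk
    have h5 : ((r0.1, k') : Fin M × Dig g) ≠ r0 := by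
      intro h6
      have h7 : k' = r0.2 := congrArg Prod.snd h6
      rw [h7] at h3
      exact lt_irrefl _ h3
    have h6 : ((r0.1, k'.1) : Fin M × Fin g) ≠ (r0.1, r0.2.1) := by
      intro h7
      exact h2 (Prod.mk.inj h7).2
    have h7 := shift_val (D := D) r0 S b' c x k'
    rw [h] at h7
    unfold rowt at h7
    rw [if_neg (fun h8 => h2 h8.1), Nat.add_zero (x k').val] at h7
    unfold sd tt
    simp only
    rw [Function.update_of_ne h5, Function.update_of_ne h6, h7]
  · rfl

theorem tt_of_ne {r : Fin M × Dig g} (hr : r ≠ r0) (p : PT M g D β) :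
    tt (Function.update S r0 T) p r = tt S p r := by
  unfold tt
  rw [Function.update_of_ne hr]

theorem tt_self : tt (Function.update S r0 T) (mp r0 b b' c c' x) r0 = T (c, c') := by
  unfold tt
  simp only [mp, Function.update_self]

end

end Pool.Agent.Helper8.UD
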