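import Pool.Agent.Helper8.UD.Round

/-! Sum over all places of the loss of one round. -/

open Finset

namespace Pool.Agent.Helper8.UD

set_option linter.unusedSectionVars false

/-- Resampling one coordinate of each of three functions. -/
theorem sum_update3 {ι₁ ι₂ ι₃ α₁ α₂ α₃ : Type*} [Fintype ι₁] [DecidableEq ι₁] [Fintype ι₂]
    [DecidableEq ι₂] [Fintype ι₃] [DecidableEq ι₃] [Fintype α₁] [Fintype α₂] [Fintype α₃]
    (i : ι₁) (j : ι₂) (k : ι₃) (φ : (ι₁ → α₁) → (ι₂ → α₂) → (ι₃ → α₃) → ℝ) :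
    ∑ f, ∑ g, ∑ h, ∑ a, ∑ b, ∑ c,
      φ (Function.update f i a) (Function.update g j b) (Function.update h k c) =
    ((Fintype.card α₁ : ℝ) * (Fintype.card α₂ : ℝ) * (Fintype.card α₃ : ℝ)) *
      ∑ f, ∑ g, ∑ h, φ f g h := by
  classical
  have hinv : Function.Involutive
      (fun q : ((ι₁ → α₁) × (ι₂ → α₂) × (ι₃ → α₃)) × (α₁ × α₂ × α₃) =>
        (((Function.update q.1.1 i q.2.1, Function.update q.1.2.1 j q.2.2.1,
          Function.update q.1.2.2 k q.2.2.2), (q.1.1 i, q.1.2.1 j, q.1.2.2 k)) :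
          ((ι₁ → α₁) × (ι₂ → α₂) × (ι₃ → α₃)) × (α₁ × α₂ × α₃))) := by
    intro q
    simp only [Function.update_self, Function.update_idem, Function.update_eq_self]
  have h1 := Equiv.sum_comp (hinv.toPerm _)
    (fun q : ((ι₁ → α₁) × (ι₂ → α₂) × (ι₃ → α₃)) × (α₁ × α₂ × α₃) =>
      φ q.1.1 q.1.2.1 q.1.2.2)
  simp only [Function.Involutive.coe_toPerm, Fintype.sum_prod_type] at h1
  rw [h1]
  simp only [Finset.sum_const, Finset.card_univ, nsmul_eq_mul, Finset.mul_sum]
  refine Finset.sum_congr rfl (fun f _ => Finset.sum_congr rfl (fun g _ =>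
    Finset.sum_congr rfl (fun h _ => ?_)))
  ring

variable {M g D : ℕ} {β : Type} [Fintype β] [DecidableEq β] [Inhabited β]
variable {L : ℕ} (labH : Tab M g β → HP M g D β → Fin L) (A : Fin L → Fin L → Prop)

/-- The labels of the groups. -/
abbrev Val (M g D : ℕ) (β : Type) (L : ℕ) :=
  (β → (Fin M × Dig g) → Fin D → Fin L) × (β → Dig g → Fin D → Fin L)

/-- The labels of the groups, as a function of the table of the round. -/
def Fv (r0 : Fin M × Dig g) (S : Tab M g β) (b b' : Fin M × Fin g → β)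
    (x0 : Dig g → Fin (D + 1)) (T : β × β → Bool) : Val M g D β L :=
  (fun c r θ => labH (Function.update S r0 T) (names1 r0 S b b' x0 c r θ),
    fun c' k θ => labH (Function.update S r0 T) (names2 r0 S b b' x0 c' k θ))

open Classical in
/-- Weights: numbers of consistent labels. -/
noncomputable def nw (r0 : Fin M × Dig g) (S : Tab M g β) (b b' : Fin M × Fin g → β)
    (x0 : Dig g → Fin (D + 1)) (q : β × β) (v : Val M g D β L) (bit : Bool) : ℝ :=
  if h : ∃ x : Dig g → Fin D, shift r0 S b' q.1 x = x0 then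
    ((univ.filter (fun ℓ : Fin L =>
      (∀ r : Fin M × Dig g, rk r < rk r0 →
        (A ℓ (if r.1 < r0.1 then v.1 q.1 r (h.choose r.2) else v.2 q.2 r.2 (h.choose r.2)) ↔
          tt S (mp r0 b b' q.1 q.2 h.choose) r = true)) ∧
      (A ℓ (v.2 q.2 r0.2 (h.choose r0.2)) ↔ bit = true))).card : ℝ)
  else 1

section
variable {r0 : Fin M × Dig g} {S : Tab M g β} {b b' : Fin M × Fin g → β}
  {x0 : Dig g → Fin (D + 1)} {q : β × β} {T : β × β → Bool} {x : Dig g → Fin D}

theorem cons_iff (hx : shift r0 S b' q.1 x = x0) (ℓ : Fin L) :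
    (∀ r : Fin M × Dig g, rk r < rk r0 →
        (A ℓ (if r.1 < r0.1 then (Fv labH r0 S b b' x0 T).1 q.1 r (x r.2)
          else (Fv labH r0 S b b' x0 T).2 q.2 r.2 (x r.2)) ↔
          tt S (mp r0 b b' q.1 q.2 x) r = true)) ↔
    (∀ r : Fin M × Dig g, rk r < rk r0 →
      (A ℓ (labH (Function.update S r0 T)
        (name (Function.update S r0 T) (mp r0 b b' q.1 q.2 x) r (x r.2))) ↔
        tt (Function.update S r0 T) (mp r0 b b' q.1 q.2 x) r = true)) := by
  refine forall_congr' (fun r => imp_congr_right (fun hr => ?_))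
  have hne : r ≠ r0 := by
    intro h
    rw [h] at hr
    exact lt_irrefl _ hr
  rw [tt_of_ne hne]
  rcases rk_lt_rk hr with h1 | ⟨h1, h2⟩
  · rw [if_pos h1]
    simp only [Fv]
    rw [name1_eq (c' := q.2) hx h1]
  · rw [if_neg (by rw [h1]; exact lt_irrefl _)]
    simp only [Fv]
    have h3 : r = (r0.1, r.2) := Prod.ext h1 rfl
    have h4 := name2_eq (T := T) (b := b) (c' := q.2) hx h2.le (x r.2)
    rw [← h3] at h4
    rw [h4]

theorem last_iff (hx : shift r0 S b' q.1 x = x0) (ℓ : Fin L) :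
    A ℓ ((Fv labH r0 S b b' x0 T).2 q.2 r0.2 (x r0.2)) ↔
    A ℓ (labH (Function.update S r0 T)
        (name (Function.update S r0 T) (mp r0 b b' q.1 q.2 x) r0 (x r0.2))) := by
  simp only [Fv]
  have h4 := name2_eq (T := T) (b := b) (c' := q.2) hx (le_refl (idx r0.2)) (x r0.2)
  rw [← h4]

theorem nw_add (hx : shift r0 S b' q.1 x = x0) :
    nw A r0 S b b' x0 q (Fv labH r0 S b b' x0 T) false +
      nw A r0 S b b' x0 q (Fv labH r0 S b b' x0 T) true =
    (Nn labH A (rk r0) (Function.update S r0 T) (mp r0 b b' q.1 q.2 x) : ℝ) := by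
  classical
  have h : ∃ x : Dig g → Fin D, shift r0 S b' q.1 x = x0 := ⟨x, hx⟩
  have hc : h.choose = x := shift_injective _ _ _ _ (h.choose_spec.trans hx.symm)
  unfold nw Nn
  simp only [dif_pos h, hc]
  rw [← Nat.cast_add]
  congr 1
  rw [← Finset.card_filter_add_card_filter_not
    (s := univ.filter (fun ℓ : Fin L => ∀ r : Fin M × Dig g, rk r < rk r0 →
      (A ℓ (labH (Function.update S r0 T)
        (name (Function.update S r0 T) (mp r0 b b' q.1 q.2 x) r (x r.2))) ↔
        tt (Function.update S r0 T) (mp r0 b b' q.1 q.2 x) r = true)))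
    (fun ℓ => ¬ A ℓ ((Fv labH r0 S b b' x0 T).2 q.2 r0.2 (x r0.2)))]
  rw [Finset.filter_filter, Finset.filter_filter]
  congr 1
  · congr 1
    ext ℓ
    simp only [Finset.mem_filter, Finset.mem_univ, true_and]
    rw [cons_iff labH A hx]
    simp
  · congr 1
    ext ℓ
    simp only [Finset.mem_filter, Finset.mem_univ, true_and]
    rw [cons_iff labH A hx]
    simp

theorem nw_self (hx : shift r0 S b' q.1 x = x0) :
    nw A r0 S b b' x0 q (Fv labH r0 S b b' x0 T) (T q) =
    (Nn labH A (rk r0 + 1) (Function.update S r0 T) (mp r0 b b' q.1 q.2 x) : ℝ) := by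
  classical
  have h : ∃ x : Dig g → Fin D, shift r0 S b' q.1 x = x0 := ⟨x, hx⟩
  have hc : h.choose = x := shift_injective _ _ _ _ (h.choose_spec.trans hx.symm)
  unfold nw Nn
  simp only [dif_pos h, hc]
  congr 2
  ext ℓ
  simp only [Finset.mem_filter, Finset.mem_univ, true_and]
  rw [cons_iff labH A hx, last_iff labH A hx]
  constructor
  · rintro ⟨h1, h2⟩ r hr
    by_cases hrr : r = r0
    · rw [hrr, tt_self]
      exact h2
    · refine h1 r (lt_of_le_of_ne (Nat.lt_succ_iff.1 hr) ?_)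
      intro h3
      exact hrr (rk_injective h3)
  · intro h1
    refine ⟨fun r hr => h1 r (Nat.lt_succ_of_lt hr), ?_⟩
    have h2 := h1 r0 (Nat.lt_succ_self _)
    rw [tt_self] at h2
    exact h2

end

end Pool.Agent.Helper8.UD
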